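import Pool.Agent.TH869.RB.Main
import Pool.Agent.TH869.LPS.Fin

set_option autoImplicit false

/-!
# Power saving for the powers of a rational number along polynomial sequences
-/

namespace Pool.Agent.TH869.RB

open Finset Polynomial Filter Pool.Agent.TH869.LPS

/-- Power saving, polynomials of given degree. -/
theorem core (a b : ℕ) (hb : 2 ≤ b) (hab : b < a) (hcop : Nat.Coprime a b) (d : ℕ) :
    ∃ A : ℕ, 1 ≤ A ∧ ∀ (ε : ℝ), 0 < ε → ε ≤ 1/2 →
    ∀ P : ℝ[X], P.natDegree ≤ d+1 → P.coeff (d+1) ≠ 0 → ∀ N : ℕ, 1 ≤ N →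
    ∀ E : Finset ℕ, E ⊆ range N → (∀ l ∈ E, Miss ((a:ℝ)/b) ε (P.eval (l:ℝ))) →
    (E.card : ℝ) ≤ 4 / ε * N * (N:ℝ) ^ (-(ε / (A * Real.log (1/ε)))) := by
  obtain ⟨C, hC1, hC⟩ := param d
  set A₀ : ℕ := 2 * C + 2 with hA₀
  set D : ℕ := 2 * a + 10 with hD
  refine ⟨8 * D * A₀, Nat.mul_pos (by omega) (by omega), ?_⟩
  intro ε hε hε2 P hP hP0 N hN E hE hbad
  have hlog := log_pos_of ε hε hε2
  set lg := Real.log (1/ε) with hlg
  have hlg0 : 0 < lg := by linarith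
  have hi2 : 2 ≤ 1/ε := by rw [le_div_iff₀ hε]; linarith
  have hNr : (0:ℝ) < N := by exact_mod_cast hN
  have hA₀r : (0:ℝ) < A₀ := by
    have : 0 < A₀ := by omega
    exact_mod_cast this
  have hDr : (0:ℝ) < D := by
    have : 0 < D := by omega
    exact_mod_cast this
  have har : (1:ℝ) ≤ a := by exact_mod_cast (by omega : 1 ≤ a)
  have ha0 : (0:ℝ) < a := by linarith
  -- choice of parameters
  obtain ⟨M, hM1, hM2⟩ : ∃ M : ℕ, 8/ε^2 ≤ (M:ℝ) ∧ (M:ℝ) ≤ 9/ε^2 := by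
    refine ⟨⌈8/ε^2⌉₊, Nat.le_ceil _, ?_⟩
    have h2 := Nat.ceil_lt_add_one (by positivity : 0 ≤ 8/ε^2)
    have h3 : 1 ≤ 1/ε^2 := by rw [le_div_iff₀ (by positivity)]; nlinarith
    have h4 : 9/ε^2 = 8/ε^2 + 1/ε^2 := by ring
    linarith
  obtain ⟨R, hR1, hR2⟩ : ∃ R : ℕ, 109/ε^3 ≤ (R:ℝ) ∧ (R:ℝ) ≤ 110/ε^3 := by
    refine ⟨⌈109/ε^3⌉₊, Nat.le_ceil _, ?_⟩
    have h2 := Nat.ceil_lt_add_one (by positivity : 0 ≤ 109/ε^3)
    have h3 : 1 ≤ 1/ε^3 := by
      rw [le_div_iff₀ (by positivity), one_mul]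
      exact pow_le_one₀ hε.le (by linarith)
    have h4 : 110/ε^3 = 109/ε^3 + 1/ε^3 := by ring
    linarith
  obtain ⟨G, hG1, hG2⟩ : ∃ G : ℕ, 1/ε ≤ (G:ℝ) ∧ (G:ℝ) ≤ 3/(2*ε) := by
    refine ⟨⌈1/ε⌉₊, Nat.le_ceil _, ?_⟩
    have h2 := Nat.ceil_lt_add_one (by positivity : 0 ≤ 1/ε)
    have h4 : 3/(2*ε) = 1/ε + (1/ε)/2 := by field_simp; norm_num
    linarith
  have h3M : 4 + 2 * (M:ℝ) ≤ R := by
    refine le_trans ?_ hR1
    have h4 : 1 ≤ 1/ε^2 := by rw [le_div_iff₀ (by positivity)]; nlinarith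
    have h5 : 1/ε^2 ≤ 1/ε^3 := by
      apply one_div_le_one_div_of_le (by positivity)
      apply pow_le_pow_of_le_one hε.le (by linarith) (by norm_num)
    have h6 : 9/ε^2 = 9 * (1/ε^2) := by ring
    have h7 : 109/ε^3 = 109 * (1/ε^3) := by ring
    rw [h7]
    rw [h6] at hM2
    linarith
  have h3M' : 4 + 2 * M ≤ R := by exact_mod_cast h3M
  obtain ⟨T, hT1, hT2⟩ : ∃ T : ℕ, M ≤ a ^ T ∧ a ^ T ≤ a * R := by
    refine ⟨Nat.log a M + 1, (Nat.lt_pow_succ_log_self (by omega) M).le, ?_⟩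
    rw [pow_succ, mul_comm]
    apply Nat.mul_le_mul_left
    rcases Nat.eq_zero_or_pos M with h0 | h0
    · rw [h0]; simp; omega
    · exact (Nat.pow_log_le_self a (by omega)).trans (by omega)
  have hRlog : Real.log R ≤ 10 * lg := by
    have h2 : (R:ℝ) ≤ (1/ε)^10 := by
      refine hR2.trans ?_
      have h3 : (2:ℝ)^7 ≤ (1/ε)^7 := by gcongr
      have h4 : 110/ε^3 = 110 * (1/ε)^3 := by field_simp
      have h5 : (1/ε)^10 = (1/ε)^7 * (1/ε)^3 := by ring
      rw [h4, h5]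
      gcongr
      linarith
    have h6 : (0:ℝ) < R := lt_of_lt_of_le (by positivity) hR1
    calc Real.log R ≤ Real.log ((1/ε)^10) := Real.log_le_log h6 h2
      _ = 10 * lg := by rw [Real.log_pow]; push_cast; ring
  set R' : ℕ := a * R with hR'
  have hR0 : (0:ℝ) < R := lt_of_lt_of_le (by positivity) hR1
  have hR'log : Real.log R' ≤ D * lg := by
    rw [hR']
    push_cast
    rw [Real.log_mul ha0.ne' hR0.ne']
    have h2 : Real.log a ≤ a := (Real.log_le_sub_one_of_pos ha0).trans (by linarith)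
    have h3 : (D:ℝ) = 2 * a + 10 := by rw [hD]; push_cast; ring
    rw [h3]
    nlinarith
  have hR3 : (2:ℝ) ≤ R := by linarith [show (0:ℝ) ≤ M from Nat.cast_nonneg _]
  have hR3' : 2 ≤ R := by exact_mod_cast hR3
  have hR4' : 2 ≤ R' := by
    rw [hR']
    calc 2 ≤ 1 * R := by omega
      _ ≤ a * R := Nat.mul_le_mul_right _ (by omega)
  set m : ℕ := Nat.log (R' ^ A₀) N with hm
  have hbase : 1 < R' ^ A₀ := Nat.one_lt_pow (by omega) hR4'
  have hm1 : (R' ^ A₀) ^ m ≤ N := Nat.pow_log_le_self _ (by omega)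
  have hm2 : N < (R' ^ A₀) ^ (m+1) := Nat.lt_pow_succ_log_self hbase N
  have hlogB : Real.log N ≤ D * A₀ * (m+1) * lg := by
    have h2 : (N:ℝ) ≤ ((R':ℝ) ^ A₀) ^ (m+1) := by exact_mod_cast hm2.le
    calc Real.log N ≤ Real.log (((R':ℝ) ^ A₀) ^ (m+1)) := Real.log_le_log hNr h2
      _ = (m+1) * (A₀ * Real.log R') := by rw [Real.log_pow, Real.log_pow]; push_cast; ring
      _ ≤ (m+1) * (A₀ * (D * lg)) := by gcongr
      _ = _ := by ring
  set x : ℝ := ε / (((8 * D * A₀ : ℕ) : ℝ) * lg) with hx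
  have hx0 : 0 < x := by
    rw [hx]; push_cast; positivity
  have hxB : x * Real.log N ≤ ε * (m+1) / 8 := by
    calc x * Real.log N ≤ x * (D * A₀ * (m+1) * lg) := by gcongr
      _ = ε * (m+1) / 8 := by
        rw [hx]; push_cast; field_simp
  have hBx : Real.exp (-(ε * (m+1) / 8)) ≤ (N:ℝ) ^ (-x) := by
    rw [Real.rpow_def_of_pos hNr]
    apply Real.exp_le_exp.2
    linarith
  have hexp8 : Real.exp (1/8) ≤ 8/7 := by
    have h2 := Real.add_one_le_exp (-(1/8:ℝ))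
    rw [Real.exp_neg] at h2
    have h3 := Real.exp_pos (1/8:ℝ)
    rw [inv_eq_one_div, le_div_iff₀ h3] at h2
    linarith
  rcases Nat.lt_or_ge m 2 with hm3 | hm3
  · -- `N` is small
    have h2 : (E.card : ℝ) ≤ N := by
      have := card_le_card hE
      rw [card_range] at this
      exact_mod_cast this
    have h3 : (7/8:ℝ) ≤ (N:ℝ) ^ (-x) := by
      refine le_trans ?_ hBx
      have h4 : (m:ℝ) + 1 ≤ 2 := by
        have : m + 1 ≤ 2 := by omega
        exact_mod_cast this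
      have h5 : ε * (m+1) / 8 ≤ 1/8 := by nlinarith
      have h6 := Real.add_one_le_exp (-(ε * (m+1) / 8))
      linarith
    have h4 : (8:ℝ) ≤ 4/ε := by
      have : 4/ε = 4 * (1/ε) := by ring
      rw [this]; linarith
    calc (E.card : ℝ) ≤ N := h2
      _ ≤ 8 * N * (7/8) := by linarith
      _ ≤ 4 / ε * N * (N:ℝ) ^ (-x) := by gcongr
  · -- main case
    have h2 := hC a b hb hab hcop ε hε hε2 P hP hP0 N M T R' (m-1) G (by omega) hN
      (by
        have : (0:ℝ) < G := lt_of_lt_of_le (by positivity) hG1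
        exact_mod_cast this)
      (by
        rw [div_le_iff₀ (by positivity)] at hM1
        nlinarith)
      hT1
      (by
        rw [div_le_iff₀ hε] at hG1
        linarith)
      (by
        calc 4 + 2 * M ≤ R := h3M'
          _ = 1 * R := (one_mul _).symm
          _ ≤ a * R := Nat.mul_le_mul_right _ (by omega))
      (by
        calc a + b ≤ a * 2 := by omega
          _ ≤ a * R := Nat.mul_le_mul_left _ hR3')
      hT2
      (by
        have : (2 * C + 2) * (m - 1 + 1) = A₀ * m := by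
          rw [hA₀]; congr 1; omega
        rw [this, pow_mul]
        exact hm1)
      E hE hbad
    have h3 : (1 - ε/8) ^ (m-1) ≤ Real.exp (1/8) * (N:ℝ) ^ (-x) := by
      have h4 : 1 - ε/8 ≤ Real.exp (-(ε/8)) := by
        have := Real.add_one_le_exp (-(ε/8))
        linarith
      calc (1 - ε/8) ^ (m-1) ≤ (Real.exp (-(ε/8))) ^ (m-1) := by
            apply pow_le_pow_left₀ (by linarith) h4
        _ = Real.exp (-(ε * ((m:ℝ) - 1) / 8)) := by
            rw [← Real.exp_nat_mul]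
            congr 1
            rw [Nat.cast_sub (by omega)]
            push_cast; ring
        _ = Real.exp (ε/4) * Real.exp (-(ε * (m+1) / 8)) := by
            rw [← Real.exp_add]; congr 1; ring
        _ ≤ Real.exp (1/8) * (N:ℝ) ^ (-x) :=
            mul_le_mul (Real.exp_le_exp.2 (by linarith)) hBx (Real.exp_pos _).le (Real.exp_pos _).le
    have h3' : (1 - ε/8) ^ (m-1) ≤ 8/7 * (N:ℝ) ^ (-x) := h3.trans (by gcongr)
    have h5 : 0 ≤ (1 - ε/8) ^ (m-1) := pow_nonneg (by linarith) _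
    calc (E.card : ℝ) ≤ G * (2 * (1 - ε / 8) ^ (m-1) * N) := h2
      _ ≤ (3/(2*ε)) * (2 * (8/7 * (N:ℝ) ^ (-x)) * N) := by
          gcongr
      _ = (24/7) / ε * N * (N:ℝ) ^ (-x) := by field_simp; ring
      _ ≤ 4 / ε * N * (N:ℝ) ^ (-x) := by
          gcongr
          norm_num

/-- Power saving, all nonconstant polynomials of degree at most `d`. -/
theorem all (a b : ℕ) (hb : 2 ≤ b) (hab : b < a) (hcop : Nat.Coprime a b) (d : ℕ) :
    ∃ A : ℕ, 1 ≤ A ∧ ∀ (ε : ℝ), 0 < ε → ε ≤ 1/2 →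
    ∀ P : ℝ[X], 1 ≤ P.natDegree → P.natDegree ≤ d → ∀ N : ℕ, 1 ≤ N →
    ∀ E : Finset ℕ, E ⊆ range N → (∀ l ∈ E, Miss ((a:ℝ)/b) ε (P.eval (l:ℝ))) →
    (E.card : ℝ) ≤ 4 / ε * N * (N:ℝ) ^ (-(ε / (A * Real.log (1/ε)))) := by
  choose A hA1 hA using fun e => core a b hb hab hcop e
  refine ⟨(range d).sup A + 1, by omega, ?_⟩
  intro ε hε hε2 P h1 h2 N hN E hE hbad
  obtain ⟨e, he⟩ : ∃ e, P.natDegree = e + 1 := ⟨P.natDegree - 1, by omega⟩
  have hlog := log_pos_of ε hε hε2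
  have hP0 : P.coeff (e+1) ≠ 0 := by
    rw [← he]
    have hP : P ≠ 0 := by rintro rfl; simp at h1
    exact leadingCoeff_ne_zero.2 hP
  refine (hA e ε hε hε2 P he.le hP0 N hN E hE hbad).trans ?_
  have hN1 : (1:ℝ) ≤ N := by exact_mod_cast hN
  have hAe : A e ≤ (range d).sup A + 1 :=
    (Finset.le_sup (f := A) (mem_range.2 (by omega))).trans (Nat.le_succ _)
  have hAr : (A e : ℝ) ≤ (((range d).sup A + 1 : ℕ) : ℝ) := by exact_mod_cast hAe
  have hA0 : (0:ℝ) < A e := by exact_mod_cast hA1 e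
  have hlg0 : 0 < Real.log (1/ε) := by linarith
  gcongr

end Pool.Agent.TH869.RB
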