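import Mathlib

set_option autoImplicit false

/-!
# Good places for powers of a rational number
-/

namespace Pool.Agent.TH869.RB

/-- Among the numbers `θ (a/b)^s`, `θ ≠ 0`, there are arbitrarily late ones which are not close to
rational numbers with small denominators. -/
theorem good (a b : ℕ) (hb : 2 ≤ b) (hab : b < a) (hcop : Nat.Coprime a b) (θ : ℝ) (hθ : θ ≠ 0)
    (U τ : ℝ) (h : ((a:ℝ) + b) * U * τ ≤ 1) (S : ℕ) :
    ∃ s : ℕ, S ≤ s ∧ ∀ u : ℕ, 1 ≤ u → (u:ℝ) ≤ U → ∀ t : ℤ, τ ≤ |(u:ℝ) * (((a:ℝ)/b)^s * θ) - t| := by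
  by_contra hcon
  push Not at hcon
  have hb0 : (0:ℝ) < b := by exact_mod_cast (by omega : 0 < b)
  have ha0 : (0:ℝ) < a := by exact_mod_cast (by omega : 0 < a)
  choose! u hu1 hu2 t ht using hcon
  set p : ℕ → ℕ := fun i => u (S+i) with hp
  set q : ℕ → ℤ := fun i => t (S+i) with hq
  have hp1 : ∀ i, 1 ≤ p i := fun i => hu1 _ (by omega)
  have hp2 : ∀ i, (p i : ℝ) ≤ U := fun i => hu2 _ (by omega)
  have hpq : ∀ i, |(p i : ℝ) * (((a:ℝ)/b)^(S+i) * θ) - q i| < τ := fun i => ht _ (by omega)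
  have hτ0 : 0 < τ := lt_of_le_of_lt (abs_nonneg _) (hpq 0)
  have hstep : ∀ i, (b:ℤ) * p i * q (i+1) = a * p (i+1) * q i := by
    intro i
    have e1 : (((b:ℤ) * p i * q (i+1) - a * p (i+1) * q i : ℤ) : ℝ) =
        a * p (i+1) * ((p i : ℝ) * (((a:ℝ)/b)^(S+i) * θ) - q i) -
          b * p i * ((p (i+1) : ℝ) * (((a:ℝ)/b)^(S+(i+1)) * θ) - q (i+1)) := by
      push_cast
      rw [← add_assoc, pow_succ]
      field_simp
      ring
    have h1 : |(((b:ℤ) * p i * q (i+1) - a * p (i+1) * q i : ℤ) : ℝ)| < 1 := by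
      rw [e1]
      have hp0 : (0:ℝ) < p i := by exact_mod_cast hp1 i
      have hp0' : (0:ℝ) < p (i+1) := by exact_mod_cast hp1 (i+1)
      calc _ ≤ |a * p (i+1) * ((p i : ℝ) * (((a:ℝ)/b)^(S+i) * θ) - q i)| +
          |b * p i * ((p (i+1) : ℝ) * (((a:ℝ)/b)^(S+(i+1)) * θ) - q (i+1))| := abs_sub _ _
        _ = a * p (i+1) * |((p i : ℝ) * (((a:ℝ)/b)^(S+i) * θ) - q i)| +
          b * p i * |((p (i+1) : ℝ) * (((a:ℝ)/b)^(S+(i+1)) * θ) - q (i+1))| := by
            rw [abs_mul ((a:ℝ) * p (i+1)), abs_mul ((b:ℝ) * p i),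
              abs_of_pos (by positivity : (0:ℝ) < a * p (i+1)),
              abs_of_pos (by positivity : (0:ℝ) < b * p i)]
        _ < a * p (i+1) * τ + b * p i * τ := by
            have h2 := mul_lt_mul_of_pos_left (hpq i) (by positivity : (0:ℝ) < a * p (i+1))
            have h3 := mul_lt_mul_of_pos_left (hpq (i+1)) (by positivity : (0:ℝ) < b * p i)
            linarith
        _ ≤ a * U * τ + b * U * τ := by
            have h2 := hp2 i
            have h3 := hp2 (i+1)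
            gcongr
        _ = ((a:ℝ) + b) * U * τ := by ring
        _ ≤ 1 := h
    have h2 : |(b:ℤ) * p i * q (i+1) - a * p (i+1) * q i| < 1 := by exact_mod_cast h1
    have := Int.abs_lt_one_iff.1 h2
    linarith
  have hind : ∀ i, (b:ℤ)^i * p 0 * q i = (a:ℤ)^i * q 0 * p i := by
    intro i
    induction i with
    | zero => ring
    | succ i ih =>
      have hpi : (p i : ℤ) ≠ 0 := by have := hp1 i; omega
      apply mul_right_cancel₀ hpi
      have h1 := hstep i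
      calc (b:ℤ)^(i+1) * p 0 * q (i+1) * p i = (b:ℤ)^i * p 0 * (b * p i * q (i+1)) := by ring
        _ = (b:ℤ)^i * p 0 * (a * p (i+1) * q i) := by rw [h1]
        _ = a * p (i+1) * ((b:ℤ)^i * p 0 * q i) := by ring
        _ = a * p (i+1) * ((a:ℤ)^i * q 0 * p i) := by rw [ih]
        _ = _ := by ring
  have hq0 : q 0 = 0 := by
    by_contra hne
    obtain ⟨i, hi⟩ := pow_unbounded_of_one_lt (|(q 0 : ℝ)| * U) (by norm_num : (1:ℝ) < 2)
    have hdvd : (b:ℤ)^i ∣ q 0 * p i := by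
      have h1 : (b:ℤ)^i ∣ (a:ℤ)^i * (q 0 * p i) := ⟨p 0 * q i, by rw [← mul_assoc, ← hind i]; ring⟩
      have h2 : IsCoprime ((b:ℤ)^i) ((a:ℤ)^i) :=
        (Nat.isCoprime_iff_coprime.2 hcop.symm).pow
      exact h2.dvd_of_dvd_mul_left h1
    have hpi : (p i : ℤ) ≠ 0 := by have := hp1 i; omega
    have h3 := Int.le_of_dvd (abs_pos.2 (mul_ne_zero hne hpi)) ((dvd_abs _ _).2 hdvd)
    have h4 : (b:ℝ)^i ≤ |(q 0 : ℝ)| * p i := by
      have h5 : (((b:ℤ)^i : ℤ) : ℝ) ≤ ((|q 0 * p i| : ℤ) : ℝ) := by exact_mod_cast h3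
      push_cast at h5
      rw [abs_mul, Nat.abs_cast] at h5
      exact h5
    have h6 : (2:ℝ)^i ≤ (b:ℝ)^i := by
      gcongr
      exact_mod_cast hb
    have h7 : |(q 0 : ℝ)| * p i ≤ |(q 0 : ℝ)| * U := by
      gcongr
      exact hp2 i
    linarith
  have hqi : ∀ i, q i = 0 := by
    intro i
    have h1 := hind i
    rw [hq0, mul_zero, zero_mul] at h1
    have h2 : (b:ℤ)^i * p 0 ≠ 0 := by
      have := hp1 0
      have : (p 0 : ℤ) ≠ 0 := by omega
      have : (b:ℤ) ≠ 0 := by omega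
      positivity
    exact (mul_eq_zero.1 h1).resolve_left h2
  have hr : (1:ℝ) < (a:ℝ)/b := by
    rw [lt_div_iff₀ hb0, one_mul]
    exact_mod_cast hab
  obtain ⟨i, hi⟩ := pow_unbounded_of_one_lt (τ / |θ|) hr
  have hθ0 : 0 < |θ| := abs_pos.2 hθ
  have h1 := hpq i
  rw [hqi i, Int.cast_zero, sub_zero, abs_mul, abs_mul, Nat.abs_cast] at h1
  rw [div_lt_iff₀ hθ0] at hi
  have h2 : ((a:ℝ)/b)^i ≤ |((a:ℝ)/b)^(S+i)| := by
    rw [abs_of_pos (by positivity)]
    exact pow_le_pow_right₀ hr.le (by omega)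
  have h3 : (1:ℝ) ≤ p i := by exact_mod_cast hp1 i
  have h4 : ((a:ℝ)/b)^i * |θ| ≤ |((a:ℝ)/b)^(S+i)| * |θ| := by gcongr
  have h5 : 0 ≤ |((a:ℝ)/b)^(S+i)| * |θ| := by positivity
  nlinarith

end Pool.Agent.TH869.RB
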