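import Pool.Agent.TH869.LPS.Main
import Pool.Agent.TH869.RB.Good

set_option autoImplicit false

/-!
# Power saving for the powers of a rational number along polynomial sequences
-/

namespace Pool.Agent.TH869.RB

open Finset Polynomial Filter Pool.Agent.H332R2.Lit Pool.Agent.TH869.LPS

/-- The tail of `x r^n` modulo one avoids an arc of radius `ε`. -/
def Miss (r ε x : ℝ) : Prop := ∃ (γ : ℝ) (n₀ : ℕ), ∀ n : ℕ, n₀ ≤ n → ∀ k : ℤ, ε ≤ |(r ^ n * x - γ) - k|

/-- the integer frequencies -/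
lemma indep (a b : ℕ) (hcop : Nat.Coprime a b) (hb : 2 ≤ b) (ha : 2 ≤ a) (M T I : ℕ)
    (hM : (M:ℤ) ≤ (a:ℤ)^T) (h : ℕ → ℤ) (hh : ∀ i < I, |(h i : ℝ)| ≤ M - 1)
    (hne : ∃ i < I, h i ≠ 0) :
    ∑ i ∈ range I, h i * ((a:ℤ)^(i*T) * (b:ℤ)^((I-1-i)*T)) ≠ 0 := by
  intro h0
  classical
  obtain ⟨j, hj, hj0, hmin⟩ : ∃ j, j < I ∧ h j ≠ 0 ∧ ∀ i < j, h i = 0 := by
    obtain ⟨h1, h2⟩ := Nat.find_spec hne
    refine ⟨Nat.find hne, h1, h2, fun i hi => ?_⟩
    have := Nat.find_min hne hi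
    by_contra h3
    exact this ⟨by omega, h3⟩
  have hdvd : (a:ℤ)^((j+1)*T) ∣ h j * ((a:ℤ)^(j*T) * (b:ℤ)^((I-1-j)*T)) := by
    have h1 : h j * ((a:ℤ)^(j*T) * (b:ℤ)^((I-1-j)*T)) =
        -∑ i ∈ (range I).erase j, h i * ((a:ℤ)^(i*T) * (b:ℤ)^((I-1-i)*T)) := by
      have := add_sum_erase (range I) (fun i => h i * ((a:ℤ)^(i*T) * (b:ℤ)^((I-1-i)*T)))
        (mem_range.2 hj)
      linarith
    rw [h1, dvd_neg]
    apply dvd_sum
    intro i hi
    rw [mem_erase] at hi
    rcases lt_or_gt_of_ne hi.1 with h2 | h2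
    · rw [hmin i h2, zero_mul]
      exact dvd_zero _
    · apply Dvd.dvd.mul_left
      apply Dvd.dvd.mul_right
      exact pow_dvd_pow _ (Nat.mul_le_mul_right _ h2)
  have e1 : (a:ℤ)^((j+1)*T) = (a:ℤ)^(j*T) * (a:ℤ)^T := by rw [← pow_add]; congr 1; ring
  have e2 : h j * ((a:ℤ)^(j*T) * (b:ℤ)^((I-1-j)*T)) = (a:ℤ)^(j*T) * (h j * (b:ℤ)^((I-1-j)*T)) := by
    ring
  have ha0 : (a:ℤ) ≠ 0 := by omega
  rw [e1, e2, mul_dvd_mul_iff_left (by positivity)] at hdvd
  have hc : IsCoprime ((a:ℤ)^T) ((b:ℤ)^((I-1-j)*T)) := (Nat.isCoprime_iff_coprime.2 hcop).pow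
  have h3 := hc.dvd_of_dvd_mul_right hdvd
  have h4 := Int.le_of_dvd (abs_pos.2 hj0) ((dvd_abs _ _).2 h3)
  have h5 := hh j hj
  have h6 : ((|h j| : ℤ) : ℝ) ≤ M - 1 := by push_cast; exact h5
  have h7 : ((M:ℤ) : ℝ) ≤ ((|h j| : ℤ) : ℝ) := by exact_mod_cast hM.trans h4
  push_cast at h7 h6
  linarith

/-- The counting theorem with all parameters. -/
theorem param (d : ℕ) : ∃ C : ℕ, 1 ≤ C ∧ ∀ a b : ℕ, 2 ≤ b → b < a → Nat.Coprime a b →
    ∀ (ε : ℝ), 0 < ε → ε ≤ 1/2 →
    ∀ P : ℝ[X], P.natDegree ≤ d+1 → P.coeff (d+1) ≠ 0 → ∀ N M T R I G : ℕ, 1 ≤ I → 1 ≤ N → 1 ≤ G →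
    2 ≤ (ε/2)^2 * M → M ≤ a^T → 1 ≤ ε * G → 4 + 2 * M ≤ R → a + b ≤ R → a^T ≤ R →
    R ^ ((2 * C + 2) * (I + 1)) ≤ N →
    ∀ E : Finset ℕ, E ⊆ range N → (∀ l ∈ E, Miss ((a:ℝ)/b) ε (P.eval (l:ℝ))) →
    (E.card : ℝ) ≤ G * (2 * (1 - ε / 8) ^ I * N) := by
  obtain ⟨C, hC1, hC⟩ := weylQ d
  refine ⟨C, hC1, ?_⟩
  intro a b hb hab hcop ε hε hε2 P hP hP0 N M T R I G hI hN hG hM hMa hGε hMR habR haR hRN E hE hbad
  have hNr : (0:ℝ) < N := by exact_mod_cast hN
  have hb0 : (0:ℝ) < b := by exact_mod_cast (by omega : 0 < b)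
  have ha0 : (0:ℝ) < a := by exact_mod_cast (by omega : 0 < a)
  have ha1 : (1:ℝ) ≤ a := by exact_mod_cast (by omega : 1 ≤ a)
  have hb1 : (1:ℝ) ≤ b := by exact_mod_cast (by omega : 1 ≤ b)
  have hab' : (b:ℝ) ≤ a := by exact_mod_cast hab.le
  have hMr : (8:ℝ) ≤ M := by
    have h2 : (ε/2)^2 ≤ 1/4 := by nlinarith
    have h3 : (0:ℝ) ≤ M := Nat.cast_nonneg _
    nlinarith
  have hM1 : 1 ≤ M := by
    have : (1:ℝ) ≤ M := by linarith
    exact_mod_cast this
  set L : ℕ := 2 + M with hL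
  set K : ℕ := C * (2 * L) ^ (I * C) with hK
  have hLr : (L:ℝ) = 2 + M := by rw [hL]; push_cast; ring
  have hL0 : (0:ℝ) < L := by rw [hLr]; linarith
  have hR2 : 2 ≤ R := by omega
  have hKR : K ≤ R ^ (C * (I + 1)) := by
    calc K ≤ R ^ C * R ^ (I * C) := by
          rw [hK]
          apply Nat.mul_le_mul
          · calc C ≤ 2 ^ C := Nat.lt_two_pow_self.le
              _ ≤ R ^ C := Nat.pow_le_pow_left hR2 C
          · apply Nat.pow_le_pow_left
            omega
      _ = _ := by rw [← pow_add]; congr 1; ring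
  have hK1 : 1 ≤ K := by
    rw [hK]
    exact Nat.mul_pos (by omega) (Nat.pow_pos (by omega))
  -- the place
  set U : ℝ := K * (M * (I * (a:ℝ)^((I-1)*T))) with hU
  set τ : ℝ := (K:ℝ) / N with hτ
  have hUτ : ((a:ℝ) + b) * U * τ ≤ 1 := by
    have h1 : (a + b) * (K * (M * (I * a^((I-1)*T)))) * K ≤ N := by
      calc (a + b) * (K * (M * (I * a^((I-1)*T)))) * K
          ≤ R * (R ^ (C * (I + 1)) * (R * (R ^ I * R ^ (I-1)))) * R ^ (C * (I + 1)) := by
            have hI2 : I ≤ R ^ I := Nat.lt_two_pow_self.le.trans (Nat.pow_le_pow_left hR2 I)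
            have haI : a^((I-1)*T) ≤ R ^ (I-1) := by
              rw [mul_comm, pow_mul]
              exact Nat.pow_le_pow_left haR _
            have hMR' : M ≤ R := by omega
            gcongr
        _ = R ^ (1 + C * (I+1) + 1 + I + (I-1) + C * (I+1)) := by ring
        _ ≤ R ^ ((2 * C + 2) * (I + 1)) := by
            apply Nat.pow_le_pow_right (by omega)
            have : (2 * C + 2) * (I + 1) = C * (I+1) + C * (I+1) + 2 * I + 2 := by ring
            omega
        _ ≤ N := hRN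
    have h2 : (((a + b) * (K * (M * (I * a^((I-1)*T)))) * K : ℕ) : ℝ) ≤ N := by exact_mod_cast h1
    push_cast at h2
    rw [hU, hτ, ← mul_div_assoc, div_le_one hNr]
    exact h2
  choose! γ n₀ hn₀ using hbad
  set QQ : ℕ := E.sup n₀ with hQQ
  have hQle : ∀ l ∈ E, n₀ l ≤ QQ := fun l hl => Finset.le_sup (f := n₀) hl
  set B : ℝ := (b:ℝ)^((I-1)*T) with hB
  have hB0 : 0 < B := by positivity
  obtain ⟨s, hs, hgood⟩ := good a b hb hab hcop (P.coeff (d+1) / B)
    (div_ne_zero hP0 hB0.ne') U τ hUτ QQ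
  obtain ⟨f, c, s', hf0, hf1, hf, hc0, hs1, hs2, hcL⟩ := exists_majorant (ε/2) (by positivity)
    (by linarith) M hM
  have hGr : (0:ℝ) < G := by exact_mod_cast hG
  set r : ℝ := (a:ℝ)/b with hr
  set y : ℝ := r^s / B with hy
  set q : ℕ → ℕ := fun i => a^(i*T) * b^((I-1-i)*T) with hq
  have hqy : ∀ i < I, (q i : ℝ) * y = r^(s + i*T) := by
    intro i hi
    have e1 : (I-1)*T = i*T + (I-1-i)*T := by rw [← Nat.add_mul]; congr 1; omega
    rw [hq, hy, hB, hr]
    push_cast
    rw [pow_add, e1, pow_add, div_pow (a:ℝ) b (i*T)]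
    field_simp
  have hqle : ∀ i < I, (q i : ℝ) ≤ (a:ℝ)^((I-1)*T) := by
    intro i hi
    have e1 : (I-1)*T = i*T + (I-1-i)*T := by rw [← Nat.add_mul]; congr 1; omega
    rw [hq]
    push_cast
    rw [e1, pow_add]
    gcongr
  -- cells
  choose g hg1 hg2 using fun l : ℕ => exists_cell G (by omega) (γ l)
  have hcell : ∀ k : ℕ, ((E.filter (fun l => g l = k)).card : ℝ) ≤ 2 * (1 - ε / 8) ^ I * N := by
    intro k
    set κ : ℝ := (1 / (2 * (L:ℝ))) ^ I with hκ
    have hκ0 : 0 < κ := by positivity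
    have hκ1 : κ ≤ 1 := by
      apply pow_le_one₀ (by positivity)
      rw [div_le_one (by positivity)]
      rw [hLr]; linarith
    have hKκ : (C:ℝ) * (1/κ)^C = K := by
      have h1κ : 1/κ = (2 * (L:ℝ)) ^ I := by rw [hκ, one_div_pow, one_div_one_div]
      rw [h1κ, hK]
      push_cast
      rw [← pow_mul]
    have h2 := count (fun l => y * P.eval (l:ℝ)) N M c f (κ * N) L (ctr G k) q hM1 hf hf0 (ε/2) hf1
      (by rw [hLr]; exact hcL) hL0.le (by positivity) s' (by linarith) hc0 I (by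
        intro h hh hne
        set w : ℤ := ∑ i ∈ range I, h i * ((a:ℤ)^(i*T) * (b:ℤ)^((I-1-i)*T)) with hwdef
        have hw0 : w ≠ 0 := indep a b hcop hb (by omega) M T I (by exact_mod_cast hMa) h hh hne
        have hwr : ∑ i ∈ range I, (h i : ℝ) * q i = w := by
          rw [hwdef, hq]; push_cast; rfl
        have hwabs : |(w:ℝ)| ≤ M * (I * (a:ℝ)^((I-1)*T)) := by
          rw [← hwr]
          calc |∑ i ∈ range I, (h i : ℝ) * q i| ≤ ∑ i ∈ range I, |(h i : ℝ) * q i| :=
                abs_sum_le_sum_abs _ _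
            _ ≤ ∑ _i ∈ range I, (M:ℝ) * (a:ℝ)^((I-1)*T) := by
                refine sum_le_sum fun i hi => ?_
                rw [abs_mul, Nat.abs_cast]
                have h3 := hh i (mem_range.1 hi)
                have h4 := hqle i (mem_range.1 hi)
                have h5 : |(h i : ℝ)| ≤ M := by linarith
                gcongr
            _ = _ := by rw [sum_const, card_range, nsmul_eq_mul]; ring
        rw [hwr]
        have h3 := hC κ hκ0 hκ1 (Polynomial.C ((w:ℝ) * y) * P) ((natDegree_C_mul_le _ _).trans hP)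
          N hN (by
            intro m hm1 hm2
            rw [hKκ] at hm2 ⊢
            have hn : 1 ≤ m * w.natAbs := Nat.mul_pos hm1 (Int.natAbs_pos.2 hw0)
            have hwn : (w.natAbs : ℝ) = |(w:ℝ)| := by rw [Nat.cast_natAbs, Int.cast_abs]
            have h4 := hgood (m * w.natAbs) hn (by
              push_cast
              rw [hwn, hU]
              gcongr) (w.sign * round ((m:ℝ) * (Polynomial.C ((w:ℝ) * y) * P).coeff (d+1)))
            refine h4.trans (le_of_eq ?_)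
            rw [coeff_C_mul]
            set z : ℤ := round ((m:ℝ) * ((w:ℝ) * y * P.coeff (d+1))) with hz
            have hsw : (w:ℝ) = w.sign * |(w:ℝ)| := by
              have := Int.sign_mul_abs w
              exact_mod_cast this.symm
            have hss : ((w.sign : ℤ):ℝ) * (w.sign:ℤ) = 1 := by
              have : w.sign * w.sign = 1 := by
                rcases lt_or_gt_of_ne hw0 with h2 | h2
                · rw [Int.sign_eq_neg_one_of_neg h2]; norm_num
                · rw [Int.sign_eq_one_of_pos h2]; norm_num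
              exact_mod_cast this
            have hsabs : |((w.sign : ℤ):ℝ)| = 1 := by
              have h2 : |((w.sign : ℤ):ℝ)| * |((w.sign : ℤ):ℝ)| = 1 := by
                rw [abs_mul_abs_self]; exact hss
              nlinarith [abs_nonneg ((w.sign : ℤ):ℝ)]
            have e1 : ((m * w.natAbs : ℕ) : ℝ) * (r^s * (P.coeff (d+1) / B)) -
                ((w.sign * z : ℤ) : ℝ) =
                w.sign * ((m:ℝ) * ((w:ℝ) * y * P.coeff (d+1)) - z) := by
              push_cast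
              rw [hwn, hy]
              have h6 : (w.sign : ℝ) * ((m:ℝ) * ((w:ℝ) * (r^s/B) * P.coeff (d+1)) - z) =
                  (m:ℝ) * ((w.sign : ℝ) * w) * (r^s/B) * P.coeff (d+1) - w.sign * z := by ring
              have h7 : (w.sign : ℝ) * w = |(w:ℝ)| := by
                calc (w.sign : ℝ) * w = (w.sign : ℝ) * (w.sign * |(w:ℝ)|) := by rw [← hsw]
                  _ = ((w.sign : ℝ) * w.sign) * |(w:ℝ)| := by ring
                  _ = _ := by rw [hss, one_mul]
              rw [h6, h7]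
              ring
            rw [e1, abs_mul, hsabs, one_mul])
        have h5 : ∀ l ∈ range N, e ((w:ℝ) * (fun l : ℕ => y * P.eval (l:ℝ)) l) =
            e ((Polynomial.C ((w:ℝ) * y) * P).eval (l:ℝ)) := by
          intro l _
          rw [eval_mul, eval_C, mul_assoc]
        rw [sum_congr rfl h5]
        exact h3) (E.filter (fun l => g l = k)) ((filter_subset _ _).trans hE) (by
        intro l hl i hi n
        rw [mem_filter] at hl
        have h3 := hn₀ l hl.1 (s + i*T) ((hQle l hl.1).trans (by omega)) (n - ⌊γ l⌋)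
        have h4 := hg2 l
        rw [hl.2] at h4
        have h5 : (1:ℝ) / (2 * G) ≤ ε / 2 := by
          rw [div_le_div_iff₀ (by positivity) (by norm_num)]
          linarith
        have h6 : (r^(s+i*T) * P.eval (l:ℝ) - γ l) - ((n - ⌊γ l⌋ : ℤ) : ℝ) =
            ((q i : ℝ) * (y * P.eval (l:ℝ)) - ctr G k - n) - (Int.fract (γ l) - ctr G k) := by
          have := Int.self_sub_floor (γ l)
          rw [← hqy i hi]
          push_cast
          linarith
        rw [h6] at h3
        have h7 := abs_sub (((q i : ℝ) * (y * P.eval (l:ℝ)) - ctr G k - n)) (Int.fract (γ l) - ctr G k)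
        linarith)
    refine h2.trans ?_
    have h3 : (1 - s') ^ I ≤ (1 - ε / 8) ^ I := by
      apply pow_le_pow_left₀ (by linarith)
      linarith
    have h4 : (L:ℝ) ^ I * (κ * N) = (1/2) ^ I * N := by
      rw [hκ, ← mul_assoc, ← mul_pow]
      congr 2
      field_simp
    have h5 : ((1:ℝ)/2) ^ I ≤ (1 - ε / 8) ^ I := by
      apply pow_le_pow_left₀ (by norm_num)
      linarith
    rw [h4]
    nlinarith
  have hcard : (E.card : ℝ) = ∑ k ∈ range G, ((E.filter (fun l => g l = k)).card : ℝ) := by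
    have := card_eq_sum_card_fiberwise (s := E) (f := g) (t := range G) (by
      intro l _
      exact_mod_cast mem_range.2 (hg1 l))
    exact_mod_cast this
  rw [hcard]
  calc ∑ k ∈ range G, ((E.filter (fun l => g l = k)).card : ℝ)
      ≤ ∑ _k ∈ range G, 2 * (1 - ε / 8) ^ I * (N:ℝ) := sum_le_sum fun k _ => hcell k
    _ = _ := by rw [sum_const, card_range, nsmul_eq_mul]

end Pool.Agent.TH869.RB
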